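import Mathlib
import Pool.Agent.Helper51.PT.Final

/-!
Sums of `1 / F_n` over infinite sets of positive integers such that every prime `p > K` divides at
most `K` of those which have another prime factor `> K`.
-/

set_option autoImplicit false

open Finset Real

namespace Pool.Agent.Results.MP_175197_nt.BoundedMultiplicity

open Pool.Agent.Helper51.PT

/-- If `n₀ < n₁ < ...` are positive integers and every prime `p > K` divides at most `K` of those
`n_k` which have another prime factor `> K`, then `∑ 1/F_{n_k}` is irrational. -/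
theorem result (n : ℕ → ℕ) (hn : StrictMono n) (h0 : 0 < n 0) (K : ℕ)
    (hK : ∀ p : ℕ, p.Prime → K < p → ∀ S : Finset ℕ,
      (∀ k ∈ S, p ∣ n k ∧ ∃ r : ℕ, r.Prime ∧ K < r ∧ r ≠ p ∧ r ∣ n k) → S.card ≤ K) :
    Irrational (∑' k, (1 : ℝ) / (Nat.fib (n k))) := by
  classical
  have hpos : ∀ k, 0 < n k := fun k => lt_of_lt_of_le h0 (hn.monotone (Nat.zero_le k))
  refine irrational_seq n hn hpos (K + 2) (by omega) ?_
  intro p hp hKp S hS
  have h1 : ∀ m ∈ S, ∃ k, n k = m := fun m hm => (hS m hm).1
  choose! g hg using h1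
  have h2 := hK p hp (by omega) (S.image g) (by
    intro k hk
    obtain ⟨m, hm, rfl⟩ := mem_image.1 hk
    rw [hg m hm]
    refine ⟨(hS m hm).2.1, ?_⟩
    obtain ⟨u, v, hu, hv, huv, hKu, hKv, hum, hvm⟩ := (hS m hm).2.2
    by_cases h : u = p
    · exact ⟨v, hv, by omega, fun h3 => huv (h.trans h3.symm), hvm⟩
    · exact ⟨u, hu, by omega, h, hum⟩)
  rw [card_image_of_injOn] at h2
  · omega
  · intro m hm m' hm' h
    rw [mem_coe] at hm hm'
    rw [← hg m hm, ← hg m' hm', h]

end Pool.Agent.Results.MP_175197_nt.BoundedMultiplicity
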