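import Pool.Agent.Helper9.RS.Final

/-!
# MP_175197_nt: sequences slightly sparser than the primes

If `n₀ < n₁ < ...` are positive integers with `∑_{n_k ≤ x} 1 / n_k ≤ C (log log x) ^ (1 - ε)` for
`x ≥ 16`, then `∑ 1 / F_{n_k}` is irrational.
-/

set_option autoImplicit false

namespace Pool.Agent.Results.MP_175197_nt.LogLogSparse

/-- If `∑_{n_k ≤ x} 1 / n_k ≤ C (log log x) ^ (1 - ε)` then `∑ 1 / F_{n_k}` is irrational. -/
theorem result (n : ℕ → ℕ) (hn : StrictMono n) (hpos : ∀ k, 0 < n k) (C ε : ℝ) (hε : 0 < ε)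
    (h : ∀ x : ℕ, 16 ≤ x →
      ∑ k ∈ (Finset.range (x + 1)).filter (fun k => n k ≤ x), (1 : ℝ) / (n k : ℝ) ≤
        C * (Real.log (Real.log x)) ^ (1 - ε)) :
    Irrational (∑' k, (1 : ℝ) / (Nat.fib (n k) : ℝ)) :=
  Helper9.RS.irrational_of_log_log n hn hpos C ε hε h

end Pool.Agent.Results.MP_175197_nt.LogLogSparse
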