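import Pool.Agent.Helper12.MM.Main

/-!
# MP_175197_nt: sums over multiplicative sets

If the range `A` of a strictly increasing sequence of positive integers is multiplicative away from
the prime factors of some `M` (for `M = 1`, `B = A`: the indicator function of `A` is multiplicative),
then `∑ 1 / F_{n_k}` is irrational.
-/

set_option autoImplicit false

namespace Pool.Agent.Results.MP_175197_nt.MultiplicativeSets

/-- Let `n₀ < n₁ < ...` be positive integers with the set of values `A`, let `M ≥ 1` and let `B` be a
set of integers such that for all coprime `a, b ≥ 1` with `b` coprime to `M`: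
`a b ∈ A` if and only if `a ∈ A` and `b ∈ B`. Then `∑ 1 / F_{n_k}` is irrational. -/
theorem result (n : ℕ → ℕ) (hn : StrictMono n) (hpos : ∀ k, 0 < n k) (M : ℕ) (hM : 0 < M)
    (B : Set ℕ)
    (hmul : ∀ a b : ℕ, 0 < a → 0 < b → a.Coprime b → b.Coprime M →
      (a * b ∈ Set.range n ↔ a ∈ Set.range n ∧ b ∈ B)) :
    Irrational (∑' k, (1 : ℝ) / (Nat.fib (n k) : ℝ)) := by
  classical
  obtain ⟨A, hA⟩ : ∃ A : Set ℕ, A = Set.range n := ⟨_, rfl⟩
  have hinj : Function.Injective n := hn.injective
  have h1 := Helper12.MM.main (A := A) (B := B) hM (by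
    rw [hA]
    rintro ⟨k, hk⟩
    have := hpos k
    omega) (by
    rw [hA]
    exact Set.infinite_range_of_injective hinj) (by
    rw [hA]
    exact hmul)
  have h2 : ∑' m, (if m ∈ A then 1 / (Nat.fib m : ℝ) else 0) = ∑' k, (1 : ℝ) / (Nat.fib (n k)) := by
    rw [← hinj.tsum_eq]
    · apply tsum_congr
      intro k
      rw [if_pos]
      rw [hA]
      exact Set.mem_range_self k
    · intro m hm
      rw [Function.mem_support] at hm
      by_contra hcon
      rw [if_neg] at hm
      · exact hm rfl
      · rw [hA]
        exact hcon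
  rw [← h2]
  exact h1

end Pool.Agent.Results.MP_175197_nt.MultiplicativeSets
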